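import Pool.Agent.W213.Ly.GenStm

set_option autoImplicit false

namespace Pool.Agent.W917.Ly

open Pool.Agent.W213.Ly.Gen

variable {m : ℕ}

lemma AC_comm (a b c : At m) : AC a b c ↔ AC b a c := by
  rcases a with _ | i <;> rcases b with _ | j
  · simp [AC]
  · simp [AC]
  · simp [AC]
  · by_cases h : i = j
    · subst h; simp [AC]
    · simp only [AC, if_neg h, if_neg (Ne.symm h)]
      tauto

lemma AC_cyc (a b c : At m) (h : AC a b c) : AC a c b := by
  rcases a with _ | i <;> rcases b with _ | j <;> rcases c with _ | k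
  · simp [AC] at *
  · simp [AC] at *
  · simp [AC] at *
  · simp only [AC] at *; exact h.symm
  · simp [AC] at *
  · simp only [AC] at h
    injection h with h
    subst h
    simp [AC]
  · simp only [AC] at h ⊢
    by_cases hij : i = j
    · subst hij; rfl
    · rw [if_neg hij] at h
      exact absurd rfl h.1
  · simp only [AC] at h ⊢
    by_cases hij : i = j
    · subst hij
      rw [if_pos rfl] at h
      rcases h with h | h
      · exact absurd h (by simp)
      · injection h with h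
        subst h
        simp
    · rw [if_neg hij] at h
      obtain ⟨_, h2, h3⟩ := h
      have hik : i ≠ k := fun e => h2 (by rw [e])
      rw [if_neg hik]
      refine ⟨by simp, ?_, ?_⟩
      · intro e; injection e with e; exact hij e.symm
      · intro e; injection e with e; exact h3 (by rw [e])

lemma fresh (hm : 5 ≤ m) (i j k l : Fin (m + 1)) : ∃ f : Fin (m + 1), f ≠ i ∧ f ≠ j ∧ f ≠ k ∧ f ≠ l := by
  classical
  have h : ({i, j, k, l} : Finset (Fin (m + 1))).card < (Finset.univ : Finset (Fin (m + 1))).card := by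
    rw [Finset.card_univ, Fintype.card_fin]
    have := Finset.card_le_four (a := i) (b := j) (c := k) (d := l)
    omega
  obtain ⟨f, _, hf⟩ := Finset.exists_mem_notMem_of_card_lt_card h
  refine ⟨f, ?_⟩
  simp only [Finset.mem_insert, Finset.mem_singleton, not_or] at hf
  exact hf

/-- values of `(a ; b) ; d` -/
lemma L_ne (hm : 5 ≤ m) (i j k : Fin (m + 1)) (c : At m) (hij : i ≠ j) :
    (∃ p, AC (some i) (some j) p ∧ AC p (some k) c) ↔
      ((k ≠ i ∧ k ≠ j) ∨ (c ≠ none ∧ c ≠ some k)) := by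
  constructor
  · rintro ⟨p, h1, h2⟩
    simp only [AC, if_neg hij] at h1
    rcases p with _ | l
    · exact absurd rfl h1.1
    obtain ⟨_, h3, h4⟩ := h1
    have hli : l ≠ i := fun e => h3 (by rw [e])
    have hlj : l ≠ j := fun e => h4 (by rw [e])
    by_cases hlk : l = k
    · subst hlk; exact Or.inl ⟨hli, hlj⟩
    · simp only [AC, if_neg hlk] at h2
      exact Or.inr ⟨h2.1, h2.2.2⟩
  · intro h
    have key : c ≠ none → c ≠ some k → ∃ p, AC (some i) (some j) p ∧ AC p (some k) c := by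
      intro h1 h2
      rcases c with _ | c
      · exact absurd rfl h1
      obtain ⟨f, f1, f2, f3, f4⟩ := fresh hm i j k c
      refine ⟨some f, ?_, ?_⟩
      · simp only [AC, if_neg hij]
        exact ⟨by simp, by simpa using f1, by simpa using f2⟩
      · simp only [AC, if_neg f3]
        exact ⟨by simp, by simpa using (Ne.symm f4), h2⟩
    rcases h with ⟨h1, h2⟩ | ⟨h1, h2⟩
    · by_cases hc : c = none ∨ c = some k
      · refine ⟨some k, ?_, ?_⟩
        · simp only [AC, if_neg hij]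
          exact ⟨by simp, by simpa using h1, by simpa using h2⟩
        · simpa [AC] using hc
      · rw [not_or] at hc
        exact key hc.1 hc.2
    · exact key h1 h2

lemma L_eq (i k : Fin (m + 1)) (c : At m) (hik : i ≠ k) :
    (∃ p, AC (some i) (some i) p ∧ AC p (some k) c) ↔ (c ≠ none ∧ c ≠ some i) := by
  constructor
  · rintro ⟨p, h1, h2⟩
    simp only [AC, if_true] at h1
    rcases h1 with rfl | rfl
    · simp only [AC] at h2
      subst h2
      exact ⟨by simp, by simpa using (Ne.symm hik)⟩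
    · simp only [AC, if_neg hik] at h2
      exact ⟨h2.1, h2.2.1⟩
  · rintro ⟨h1, h2⟩
    by_cases h3 : c = some k
    · exact ⟨none, by simp [AC], by simpa [AC] using h3⟩
    · refine ⟨some i, by simp [AC], ?_⟩
      simp only [AC, if_neg hik]
      exact ⟨h1, h2, h3⟩

/-- swapping the first and the third factor -/
lemma L_swap (hm : 5 ≤ m) (a b d c : At m) (h : ∃ p, AC a b p ∧ AC p d c) :
    ∃ p, AC d b p ∧ AC p a c := by
  rcases a with _ | i
  · obtain ⟨p, h1, h2⟩ := h
    simp only [AC] at h1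
    subst h1
    refine ⟨c, (AC_comm _ _ _).1 h2, ?_⟩
    rw [AC_comm]; simp [AC]
  rcases b with _ | j
  · obtain ⟨p, h1, h2⟩ := h
    simp only [AC] at h1
    subst h1
    exact ⟨d, by rw [AC_comm]; simp [AC], (AC_comm _ _ _).1 h2⟩
  rcases d with _ | k
  · obtain ⟨p, h1, h2⟩ := h
    have h3 : c = p := by
      rw [AC_comm] at h2; simpa [AC] using h2
    subst h3
    exact ⟨some j, by simp [AC], (AC_comm _ _ _).1 h1⟩
  by_cases hij : i = j
  · subst hij
    by_cases hik : i = k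
    · subst hik; exact h
    · rw [L_eq i k c hik] at h
      rw [L_ne hm k i i c (Ne.symm hik)]
      exact Or.inr h
  · rw [L_ne hm i j k c hij] at h
    by_cases hkj : k = j
    · subst hkj
      rw [L_eq k i c (Ne.symm hij)]
      rcases h with h | h
      · exact absurd rfl h.2
      · exact h
    · rw [L_ne hm k j i c hkj]
      rcases h with h | h
      · exact Or.inl ⟨Ne.symm h.1, hij⟩
      · by_cases hki : k = i
        · subst hki; exact Or.inr h
        · exact Or.inl ⟨Ne.symm hki, hij⟩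

lemma cmpS_comm (x y : Set (At m)) : cmpS x y = cmpS y x := by
  ext c
  constructor
  · rintro ⟨a, ha, b, hb, h⟩
    exact ⟨b, hb, a, ha, (AC_comm _ _ _).1 h⟩
  · rintro ⟨a, ha, b, hb, h⟩
    exact ⟨b, hb, a, ha, (AC_comm _ _ _).1 h⟩

lemma cmpS_assoc_sub (hm : 5 ≤ m) (x y z : Set (At m)) :
    cmpS (cmpS x y) z ⊆ cmpS (cmpS z y) x := by
  rintro c ⟨p, ⟨a, ha, b, hb, h1⟩, d, hd, h2⟩
  obtain ⟨q, h3, h4⟩ := L_swap hm a b d c ⟨p, h1, h2⟩
  exact ⟨q, ⟨d, hd, b, hb, h3⟩, a, ha, h4⟩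

lemma cmpS_assoc (hm : 5 ≤ m) (x y z : Set (At m)) :
    cmpS (cmpS x y) z = cmpS x (cmpS y z) := by
  rw [cmpS_comm x (cmpS y z), cmpS_comm y z]
  exact Set.Subset.antisymm (cmpS_assoc_sub hm x y z) (cmpS_assoc_sub hm z y x)

lemma cmpS_none (x : Set (At m)) : cmpS x {none} = x := by
  ext c
  constructor
  · rintro ⟨a, ha, b, hb, h⟩
    rw [Set.mem_singleton_iff] at hb
    subst hb
    rw [AC_comm] at h
    simp only [AC] at h
    subst h
    exact ha
  · intro hc
    exact ⟨c, hc, none, rfl, by rw [AC_comm]; simp [AC]⟩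

lemma cmpS_union (x y z : Set (At m)) : cmpS (x ∪ y) z = cmpS x z ∪ cmpS y z := by
  ext c
  constructor
  · rintro ⟨a, ha | ha, b, hb, h⟩
    · exact Or.inl ⟨a, ha, b, hb, h⟩
    · exact Or.inr ⟨a, ha, b, hb, h⟩
  · rintro (⟨a, ha, b, hb, h⟩ | ⟨a, ha, b, hb, h⟩)
    · exact ⟨a, Or.inl ha, b, hb, h⟩
    · exact ⟨a, Or.inr ha, b, hb, h⟩

lemma cmpS_res (x y : Set (At m)) : cmpS x (cmpS x y)ᶜ ⊆ yᶜ := by
  rintro c ⟨a, ha, b, hb, h⟩ hc
  exact hb ⟨a, ha, c, hc, AC_cyc _ _ _ h⟩

lemma cmpS_mono {x x' y y' : Set (At m)} (h : x ⊆ x') (h' : y ⊆ y') : cmpS x y ⊆ cmpS x' y' := by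
  rintro c ⟨a, ha, b, hb, h1⟩
  exact ⟨a, h ha, b, h' hb, h1⟩

/-! ### the automorphism -/

/-- action of a permutation of the classes -/
def act (σ : Equiv.Perm (Fin (m + 1))) : At m → At m := Option.map σ

lemma AC_act (σ : Equiv.Perm (Fin (m + 1))) (a b c : At m) (h : AC a b c) :
    AC (act σ a) (act σ b) (act σ c) := by
  have inj : Function.Injective (act (m := m) σ) := Option.map_injective σ.injective
  rcases a with _ | i
  · simp only [AC] at h; subst h
    simp [act, AC]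
  rcases b with _ | j
  · simp only [AC] at h; subst h
    simp [act, AC]
  by_cases hij : i = j
  · subst hij
    simp only [AC, if_true] at h
    rcases h with rfl | rfl
    · simp [act, AC]
    · simp [act, AC]
  · simp only [AC, if_neg hij] at h
    have h1 : σ i ≠ σ j := fun e => hij (σ.injective e)
    simp only [act, Option.map_some, AC, if_neg h1]
    refine ⟨?_, ?_, ?_⟩
    · intro e
      exact h.1 (inj (a₂ := none) e)
    · intro e
      exact h.2.1 (inj (a₂ := some i) e)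
    · intro e
      exact h.2.2 (inj (a₂ := some j) e)

lemma act_swap_mem {i j : Fin (m + 1)} {x : Set (At m)} (hx : x ∈ TW i j) {a : At m}
    (ha : a ∈ x) : act (Equiv.swap i j) a ∈ x := by
  have hx' : some i ∈ x ↔ some j ∈ x := hx
  rcases a with _ | k
  · exact ha
  · change some (Equiv.swap i j k) ∈ x
    rcases eq_or_ne k i with rfl | hki
    · rw [Equiv.swap_apply_left]; exact hx'.1 ha
    · rcases eq_or_ne k j with rfl | hkj
      · rw [Equiv.swap_apply_right]; exact hx'.2 ha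
      · rw [Equiv.swap_apply_of_ne_of_ne hki hkj]; exact ha

lemma act_swap_cmp {i j : Fin (m + 1)} {x y : Set (At m)} (hx : x ∈ TW i j) (hy : y ∈ TW i j)
    {c : At m} (hc : c ∈ cmpS x y) : act (Equiv.swap i j) c ∈ cmpS x y := by
  obtain ⟨a, ha, b, hb, h⟩ := hc
  exact ⟨_, act_swap_mem hx ha, _, act_swap_mem hy hb, AC_act _ _ _ _ h⟩

lemma TW_cmp {i j : Fin (m + 1)} {x y : Set (At m)} (hx : x ∈ TW i j) (hy : y ∈ TW i j) :
    cmpS x y ∈ TW i j := by
  constructor
  · intro h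
    have := act_swap_cmp hx hy h
    simpa [act] using this
  · intro h
    have := act_swap_cmp hx hy h
    simpa [act] using this

lemma TW_none {i j : Fin (m + 1)} : ({none} : Set (At m)) ∈ TW i j := by
  constructor <;> intro h <;> simp at h

lemma TW_union {i j : Fin (m + 1)} {x y : Set (At m)} (hx : x ∈ TW i j) (hy : y ∈ TW i j) :
    x ∪ y ∈ TW i j := by
  have h1 : some i ∈ x ↔ some j ∈ x := hx
  have h2 : some i ∈ y ↔ some j ∈ y := hy
  change (some i ∈ x ∪ y) ↔ (some j ∈ x ∪ y)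
  rw [Set.mem_union, Set.mem_union, h1, h2]

lemma TW_compl {i j : Fin (m + 1)} {x : Set (At m)} (hx : x ∈ TW i j) : xᶜ ∈ TW i j := by
  have h1 : some i ∈ x ↔ some j ∈ x := hx
  change (some i ∈ xᶜ) ↔ (some j ∈ xᶜ)
  rw [Set.mem_compl_iff, Set.mem_compl_iff, h1]

/-- pigeonhole -/
lemma pigeon {n : ℕ} (hn : 2 ^ n < m + 1) (g : Fin n → Set (At m)) :
    ∃ i j : Fin (m + 1), i ≠ j ∧ ∀ t, g t ∈ TW i j := by
  classical
  have h : Fintype.card (Fin n → Bool) < Fintype.card (Fin (m + 1)) := by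
    simpa using hn
  obtain ⟨i, j, hij, h1⟩ := Fintype.exists_ne_map_eq_of_card_lt
    (fun (i : Fin (m + 1)) (t : Fin n) => decide (some i ∈ g t)) h
  refine ⟨i, j, hij, fun t => ?_⟩
  have h2 := congrFun h1 t
  change some i ∈ g t ↔ some j ∈ g t
  simpa using h2

/-- no weak representation of the whole algebra -/
lemma no_full {m : ℕ} (h2 : NoWRep m) (U : Type) (h : Set (At m) → Set (U × U))
    (hinj : Set.InjOn h Set.univ) (h0 : h ∅ = ∅) (he : h {none} = {p : U × U | p.1 = p.2})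
    (hx : ∀ x y : Set (At m), h (x ∩ y) = h x ∩ h y ∧
      h (cmpS x y) = {p : U × U | ∃ w : U, (p.1, w) ∈ h x ∧ (w, p.2) ∈ h y} ∧
      h x = {p : U × U | (p.2, p.1) ∈ h x}) : False := by
  have mono : ∀ S T : Set (At m), S ⊆ T → h S ⊆ h T := by
    intro S T hST
    have h1 := (hx S T).1
    rw [Set.inter_eq_left.2 hST] at h1
    rw [h1]
    exact Set.inter_subset_right
  have symm : ∀ (S : Set (At m)) (x y : U), (x, y) ∈ h S → (y, x) ∈ h S := by
    intro S x y hxy
    have h1 := (hx S S).2.2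
    rw [h1] at hxy
    exact hxy
  have refl : ∀ x : U, (x, x) ∈ h Set.univ := by
    intro x
    refine mono {none} _ (Set.subset_univ _) ?_
    rw [he]; exact rfl
  have trans : ∀ x y z : U, (x, y) ∈ h Set.univ → (y, z) ∈ h Set.univ → (x, z) ∈ h Set.univ := by
    intro x y z hxy hyz
    refine mono (cmpS Set.univ Set.univ) _ (Set.subset_univ _) ?_
    rw [(hx Set.univ Set.univ).2.1]
    exact ⟨y, hxy, hyz⟩
  have hne : (h {some 0}).Nonempty := by
    rw [Set.nonempty_iff_ne_empty]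
    intro e
    have h3 := hinj (Set.mem_univ _) (Set.mem_univ _) (e.trans h0.symm)
    exact Set.singleton_ne_empty _ h3
  obtain ⟨⟨x0, y0⟩, hxy⟩ := hne
  have hD : ∀ S : Set (At m), h S ⊆ h Set.univ := fun S => mono S _ (Set.subset_univ _)
  refine h2 {u : U // (x0, u) ∈ h Set.univ} (fun S a b => (a.1, b.1) ∈ h S) ?_
    ⟨x0, refl x0⟩ ⟨y0, hD _ hxy⟩ hxy
  refine ⟨?_, ?_, ?_, ?_, ?_, ?_, ?_⟩
  · intro a b
    exact trans _ _ _ (symm _ _ _ a.2) b.2
  · intro a b hab
    change (a.1, b.1) ∈ h ∅ at hab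
    rw [h0] at hab
    exact hab
  · intro S T a b h3 h4
    rw [(hx S T).1]
    exact ⟨h3, h4⟩
  · intro S T a b hST h3
    exact mono S T hST h3
  · intro S a b h3
    exact symm S _ _ h3
  · intro a b
    rw [he]
    exact Subtype.ext_iff.symm
  · intro S T a b
    rw [(hx S T).2.1]
    constructor
    · rintro ⟨w, hw1, hw2⟩
      exact ⟨⟨w, trans _ _ _ a.2 (hD _ hw1)⟩, hw1, hw2⟩
    · rintro ⟨w, hw1, hw2⟩
      exact ⟨w.1, hw1, hw2⟩

theorem target_of (h1 : ∀ m, 3 ≤ m → Pool.Agent.W213.Ly.Gen.RepTwin m)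
    (h2 : ∀ s, 1 ≤ s → Pool.Agent.W213.Ly.Gen.NoWRep (6 + 36 * s)) :
    Pool.Agent.W213.Ly.Gen.Target := by
  rintro ⟨n, H⟩
  have hm : 2 ^ n < (6 + 36 * (2 ^ n + 1)) + 1 := by omega
  have hm5 : 5 ≤ 6 + 36 * (2 ^ n + 1) := by omega
  have hs : NoWRep (6 + 36 * (2 ^ n + 1)) := h2 (2 ^ n + 1) (Nat.le_add_left 1 _)
  have hr : RepTwin (6 + 36 * (2 ^ n + 1)) := h1 _ (by omega)
  generalize 6 + 36 * (2 ^ n + 1) = m at hm hm5 hs hr
  have K := H (Set (At m)) cmpS id {none} (fun S =>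
        ((∀ x ∈ S, ∀ y ∈ S, ∀ z ∈ S,
            cmpS (cmpS x y) z = cmpS x (cmpS y z) ∧
            cmpS (x ⊔ y) z = cmpS x z ⊔ cmpS y z ∧
            cmpS x {none} = x ∧
            id (id x) = x ∧
            id (x ⊔ y) = id x ⊔ id y ∧
            id (cmpS x y) = cmpS (id y) (id x) ∧
            cmpS (id x) (cmpS x y)ᶜ ≤ yᶜ) ∧
         ∃ (U : Type) (h : Set (At m) → Set (U × U)),
            Set.InjOn h S ∧ h ⊥ = ∅ ∧ h {none} = {p : U × U | p.1 = p.2} ∧
            ∀ x ∈ S, ∀ y ∈ S,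
              h (x ⊓ y) = h x ∩ h y ∧
              h (cmpS x y) = {p : U × U | ∃ w : U, (p.1, w) ∈ h x ∧ (w, p.2) ∈ h y} ∧
              h (id x) = {p : U × U | (p.2, p.1) ∈ h x})) (fun S => Iff.rfl) ?_
  · obtain ⟨_, U, h, hinj, h0, he, hx⟩ := K
    exact no_full hs U h hinj h0 he (fun x y => hx x (Set.mem_univ _) y (Set.mem_univ _))
  · intro g
    obtain ⟨i, j, hij, hg⟩ := pigeon hm g
    have hsub : {a : Set (At m) | ∀ T : Set (Set (At m)), Set.range g ⊆ T →
          (∀ x ∈ T, ∀ y ∈ T, x ⊔ y ∈ T ∧ xᶜ ∈ T ∧ cmpS x y ∈ T ∧ id x ∈ T) →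
          {none} ∈ T → a ∈ T} ⊆ TW i j := by
      intro a ha
      refine ha (TW i j) ?_ ?_ TW_none
      · rintro _ ⟨t, rfl⟩
        exact hg t
      · intro x hx y hy
        exact ⟨TW_union hx hy, TW_compl hx, TW_cmp hx hy, hx⟩
    refine ⟨?_, ?_⟩
    · intro x _ y _ z _
      exact ⟨cmpS_assoc hm5 x y z, cmpS_union x y z, cmpS_none x, rfl, rfl, cmpS_comm x y,
        cmpS_res x y⟩
    · obtain ⟨U, h, hinj, h0, he, hx⟩ := hr i j hij
      exact ⟨U, h, hinj.mono hsub, h0, he, fun x hx' y hy' => hx x (hsub hx') y (hsub hy')⟩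

end Pool.Agent.W917.Ly
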